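import Mathlib

set_option autoImplicit false

/-! Gaussian expectation of polynomials and integration by parts. -/

namespace Pool.Agent.Helper587.Gau

open MeasureTheory ProbabilityTheory MvPolynomial Real

/-- the standard Gaussian measure on `ℝⁿ` -/
noncomputable abbrev gam (n : ℕ) : Measure (Fin n → ℝ) :=
  Measure.pi (fun _ : Fin n => gaussianReal 0 1)

theorem integrable_pow_gaussian (a : ℕ) : Integrable (fun x : ℝ => x ^ a) (gaussianReal 0 1) := by
  rcases Nat.eq_zero_or_pos a with h | h
  · subst h; simp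
  · have h1 : MemLp (id : ℝ → ℝ) (a : ENNReal) (gaussianReal 0 1) :=
      memLp_id_gaussianReal' _ (by simp)
    have h2 := h1.integrable_norm_pow (by omega)
    have h3 : Integrable (fun x : ℝ => |x| ^ a) (gaussianReal 0 1) := by
      simpa [Real.norm_eq_abs] using h2
    refine h3.mono' (by fun_prop) (Filter.Eventually.of_forall (fun x => ?_))
    simp [Real.norm_eq_abs]

/-- Gaussian moments -/
noncomputable def mom (a : ℕ) : ℝ := ∫ x, x ^ a ∂(gaussianReal 0 1)

theorem integrable_pow_pdf (a : ℕ) :
    Integrable (fun x : ℝ => x ^ a * gaussianPDFReal 0 1 x) := by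
  have h := integrable_pow_gaussian a
  rw [gaussianReal_of_var_ne_zero _ (by norm_num : (1 : NNReal) ≠ 0)] at h
  have h2 := (integrable_withDensity_iff_integrable_smul' (by fun_prop)
    (Filter.Eventually.of_forall (fun x => gaussianPDF_lt_top))).mp h
  refine h2.congr (Filter.Eventually.of_forall (fun x => ?_))
  simp only [toReal_gaussianPDF, smul_eq_mul]
  ring

theorem mom_eq (a : ℕ) : mom a = ∫ x, x ^ a * gaussianPDFReal 0 1 x := by
  unfold mom
  rw [integral_gaussianReal_eq_integral_smul (by norm_num : (1 : NNReal) ≠ 0)]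
  refine integral_congr_ae (Filter.Eventually.of_forall (fun x => ?_))
  simp only [smul_eq_mul]
  ring

theorem hasDerivAt_pdf (x : ℝ) :
    HasDerivAt (gaussianPDFReal 0 1) (-x * gaussianPDFReal 0 1 x) x := by
  have h1 : gaussianPDFReal 0 1 = fun x : ℝ => (√(2 * π))⁻¹ * rexp (-x ^ 2 / 2) := by
    ext y; simp [gaussianPDFReal]
  rw [h1]
  have h2 : HasDerivAt (fun x : ℝ => -x ^ 2 / 2) (-(2 * x) / 2) x := by
    simpa using ((hasDerivAt_pow 2 x).fun_neg).div_const 2
  have h3 := (h2.exp).const_mul ((√(2 * π))⁻¹)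
  have e : -x * ((√(2 * π))⁻¹ * rexp (-x ^ 2 / 2))
      = (√(2 * π))⁻¹ * (rexp (-x ^ 2 / 2) * (-(2 * x) / 2)) := by ring
  simp only [e]
  exact h3

theorem mom_succ (a : ℕ) : mom (a + 1) = a * mom (a - 1) := by
  have hd : ∀ x : ℝ, HasDerivAt (fun x : ℝ => x ^ a * gaussianPDFReal 0 1 x)
      (a * (x ^ (a - 1) * gaussianPDFReal 0 1 x) - x ^ (a + 1) * gaussianPDFReal 0 1 x) x := by
    intro x
    have := (hasDerivAt_pow a x).fun_mul (hasDerivAt_pdf x)
    have e : (a : ℝ) * (x ^ (a - 1) * gaussianPDFReal 0 1 x) - x ^ (a + 1) * gaussianPDFReal 0 1 x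
        = (a : ℝ) * x ^ (a - 1) * gaussianPDFReal 0 1 x
          + x ^ a * (-x * gaussianPDFReal 0 1 x) := by ring
    rw [e]
    exact this
  have hi := integral_eq_zero_of_hasDerivAt_of_integrable hd
    (((integrable_pow_pdf (a - 1)).const_mul (a : ℝ)).sub (integrable_pow_pdf (a + 1)))
    (integrable_pow_pdf a)
  rw [integral_sub ((integrable_pow_pdf (a - 1)).const_mul _) (integrable_pow_pdf (a + 1)),
    integral_const_mul] at hi
  rw [mom_eq, mom_eq]
  linarith

variable {n : ℕ}

theorem eval_monomial_eq (s : Fin n →₀ ℕ) (a : ℝ) (x : Fin n → ℝ) :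
    eval x (monomial s a) = a * ∏ i, x i ^ s i := by
  rw [eval_monomial]
  congr 1
  exact Finsupp.prod_fintype _ _ (fun i => pow_zero _)

theorem integrable_eval (q : MvPolynomial (Fin n) ℝ) :
    Integrable (fun x => eval x q) (gam n) := by
  induction q using MvPolynomial.induction_on' with
  | monomial s a =>
    simp_rw [eval_monomial_eq]
    apply Integrable.const_mul
    exact Integrable.fintype_prod (f := fun i x => x ^ s i) (fun i => integrable_pow_gaussian _)
  | add p q hp hq =>
    simp_rw [map_add]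
    exact hp.add hq

/-- Gaussian expectation of a polynomial -/
noncomputable def L (q : MvPolynomial (Fin n) ℝ) : ℝ := ∫ x, eval x q ∂(gam n)

theorem L_add (p q : MvPolynomial (Fin n) ℝ) : L (p + q) = L p + L q := by
  unfold L
  simp_rw [map_add]
  exact integral_add (integrable_eval p) (integrable_eval q)

theorem L_sub (p q : MvPolynomial (Fin n) ℝ) : L (p - q) = L p - L q := by
  unfold L
  simp_rw [map_sub]
  exact integral_sub (integrable_eval p) (integrable_eval q)

theorem L_C_mul (a : ℝ) (q : MvPolynomial (Fin n) ℝ) : L (C a * q) = a * L q := by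
  unfold L
  simp_rw [map_mul, eval_C]
  exact integral_const_mul _ _

theorem L_sum {ι : Type*} (s : Finset ι) (f : ι → MvPolynomial (Fin n) ℝ) :
    L (∑ i ∈ s, f i) = ∑ i ∈ s, L (f i) := by
  unfold L
  simp_rw [map_sum]
  exact integral_finsetSum _ (fun i _ => integrable_eval _)

theorem L_mono {p q : MvPolynomial (Fin n) ℝ} (h : ∀ x, eval x p ≤ eval x q) : L p ≤ L q :=
  integral_mono (integrable_eval p) (integrable_eval q) h

theorem L_nonneg {q : MvPolynomial (Fin n) ℝ} (h : ∀ x, 0 ≤ eval x q) : 0 ≤ L q :=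
  integral_nonneg h

theorem L_monomial (s : Fin n →₀ ℕ) (a : ℝ) : L (monomial s a) = a * ∏ i, mom (s i) := by
  unfold L
  simp_rw [eval_monomial_eq]
  rw [integral_const_mul]
  congr 1
  exact integral_fintype_prod_eq_prod (fun i x => x ^ s i)

/-- Gaussian integration by parts -/
theorem L_pderiv (i : Fin n) (q : MvPolynomial (Fin n) ℝ) : L (pderiv i q) = L (X i * q) := by
  induction q using MvPolynomial.induction_on' with
  | monomial s a =>
    have e1 : (X i : MvPolynomial (Fin n) ℝ) * monomial s a
        = monomial (s + Finsupp.single i 1) a := by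
      rw [X, monomial_mul, one_mul, add_comm]
    rw [pderiv_monomial, e1, L_monomial, L_monomial, mul_assoc]
    congr 1
    rw [← Finset.mul_prod_erase Finset.univ (fun j => mom ((s - Finsupp.single i 1 : Fin n →₀ ℕ) j))
        (Finset.mem_univ i),
      ← Finset.mul_prod_erase Finset.univ (fun j => mom ((s + Finsupp.single i 1 : Fin n →₀ ℕ) j))
        (Finset.mem_univ i), ← mul_assoc]
    congr 1
    · simp only [Finsupp.coe_tsub, Pi.sub_apply, Finsupp.single_eq_same, Finsupp.coe_add,
        Pi.add_apply]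
      exact (mom_succ (s i)).symm
    · refine Finset.prod_congr rfl (fun j hj => ?_)
      have hj' : j ≠ i := (Finset.mem_erase.mp hj).1
      simp [Finsupp.single_apply, hj'.symm]
  | add p q hp hq =>
    rw [map_add, L_add, hp, hq, mul_add, L_add]

end Pool.Agent.Helper587.Gau
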