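import Pool.Agent.Helper587.Gau.Basic
import Pool.Agent.Helper587.MB.Closing

set_option autoImplicit false

/-! Bernstein inequality for the Ornstein-Uhlenbeck operator on polynomials, even exponents. -/

namespace Pool.Agent.Helper587.Gau

open MeasureTheory ProbabilityTheory MvPolynomial

variable {n : ℕ}

/-- the Ornstein-Uhlenbeck operator on polynomials -/
noncomputable def OU (q : MvPolynomial (Fin n) ℝ) : MvPolynomial (Fin n) ℝ :=
  ∑ i, (pderiv i (pderiv i q) - X i * pderiv i q)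

theorem pderiv_comm (i j : Fin n) (q : MvPolynomial (Fin n) ℝ) :
    pderiv i (pderiv j q) = pderiv j (pderiv i q) := by
  ext s
  rw [coeff_pderiv, coeff_pderiv, coeff_pderiv, coeff_pderiv]
  by_cases h : i = j
  · subst h; rfl
  · have e : s + Finsupp.single i 1 + Finsupp.single j 1
        = s + Finsupp.single j 1 + Finsupp.single i 1 := by abel
    rw [e]
    simp [Finsupp.single_apply, h, Ne.symm h]
    ring

theorem L_mul_OU (p q : MvPolynomial (Fin n) ℝ) :
    L (p * OU q) = - ∑ i, L (pderiv i p * pderiv i q) := by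
  unfold OU
  rw [Finset.mul_sum, L_sum, ← Finset.sum_neg_distrib]
  refine Finset.sum_congr rfl (fun i _ => ?_)
  have h := L_pderiv i (p * pderiv i q)
  rw [pderiv_mul, L_add] at h
  have e : p * (pderiv i (pderiv i q) - X i * pderiv i q)
      = p * pderiv i (pderiv i q) - X i * (p * pderiv i q) := by ring
  rw [e, L_sub]
  linarith

theorem pderiv_OU (j : Fin n) (q : MvPolynomial (Fin n) ℝ) :
    pderiv j (OU q) = OU (pderiv j q) - pderiv j q := by
  unfold OU
  rw [map_sum]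
  have : ∀ i, pderiv j (pderiv i (pderiv i q) - X i * pderiv i q)
      = (pderiv i (pderiv i (pderiv j q)) - X i * pderiv i (pderiv j q))
        - (if i = j then pderiv j q else 0) := by
    intro i
    rw [map_sub, pderiv_mul, pderiv_comm j i (pderiv i q), pderiv_comm j i q]
    by_cases h : i = j
    · subst h; simp; ring
    · rw [pderiv_X_of_ne h]; simp [h]
  simp_rw [this]
  rw [Finset.sum_sub_distrib]
  simp

theorem deg_pderiv (i : Fin n) (q : MvPolynomial (Fin n) ℝ) {d : ℕ} (hq : q.totalDegree ≤ d) :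
    (pderiv i q).totalDegree ≤ d - 1 := by
  unfold totalDegree
  apply Finset.sup_le
  intro s hs
  have h1 : coeff (s + Finsupp.single i 1) q ≠ 0 := by
    intro h
    rw [mem_support_iff, coeff_pderiv, h, zero_mul] at hs
    exact hs rfl
  have h2 := (le_totalDegree (mem_support_iff.mpr h1)).trans hq
  have h3 : ((s + Finsupp.single i 1).sum fun _ e => e) = (s.sum fun _ e => e) + 1 := by
    rw [Finsupp.sum_add_index' (fun _ => rfl) (fun _ _ _ => rfl)]
    simp
  omega

theorem deg_OU (q : MvPolynomial (Fin n) ℝ) {d : ℕ} (hq : q.totalDegree ≤ d) :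
    (OU q).totalDegree ≤ d := by
  unfold OU
  apply totalDegree_finsetSum_le
  intro i _
  have h1 := deg_pderiv i q hq
  have h2 := deg_pderiv i _ h1
  rcases Nat.eq_zero_or_pos d with hd | hd
  · subst hd
    have : q = C (coeff 0 q) := totalDegree_eq_zero_iff_eq_C.mp (by omega)
    rw [this]
    simp
  · refine (totalDegree_sub _ _).trans (max_le (by omega) ?_)
    refine (totalDegree_mul _ _).trans ?_
    have h3 : (X i : MvPolynomial (Fin n) ℝ).totalDegree = 1 := totalDegree_X _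
    omega

theorem energy_aux (d : ℕ) : ∀ q : MvPolynomial (Fin n) ℝ, q.totalDegree ≤ d →
    0 ≤ L (q * (C (d : ℝ) * q + OU q)) := by
  induction d with
  | zero =>
    intro q hq
    have : q = C (coeff 0 q) := totalDegree_eq_zero_iff_eq_C.mp (by omega)
    rw [this]
    have h0 : OU (C (coeff 0 q) : MvPolynomial (Fin n) ℝ) = 0 := by
      unfold OU; simp
    rw [h0]
    simp [L]
  | succ d ih =>
    intro q hq
    set r : MvPolynomial (Fin n) ℝ := C ((d + 1 : ℕ) : ℝ) * q + OU q with hr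
    have h1 : ∀ i, pderiv i r = C (d : ℝ) * pderiv i q + OU (pderiv i q) := by
      intro i
      rw [hr, map_add, pderiv_C_mul, pderiv_OU]
      push_cast
      simp only [map_add, C_1]
      ring
    have h2 : L (r * OU q) = - ∑ i, L (pderiv i q * (C (d : ℝ) * pderiv i q + OU (pderiv i q))) := by
      rw [L_mul_OU]
      congr 1
      refine Finset.sum_congr rfl (fun i _ => ?_)
      rw [h1, mul_comm]
    have h3 : L (r * r) = ((d + 1 : ℕ) : ℝ) * L (q * r) + L (r * OU q) := by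
      rw [← L_C_mul, ← L_add]
      congr 1
      conv_lhs => rw [hr]
      rw [hr]
      ring
    have h4 : 0 ≤ L (r * r) := L_nonneg (fun x => by rw [map_mul]; exact mul_self_nonneg _)
    have h5 : 0 ≤ ∑ i, L (pderiv i q * (C (d : ℝ) * pderiv i q + OU (pderiv i q))) :=
      Finset.sum_nonneg (fun i _ => ih _ (by have := deg_pderiv i q hq; omega))
    have h6 : (0 : ℝ) < ((d + 1 : ℕ) : ℝ) := by positivity
    by_contra hneg
    push Not at hneg
    have : ((d + 1 : ℕ) : ℝ) * L (q * r) < 0 := mul_neg_of_pos_of_neg h6 hneg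
    rw [h2] at h3
    linarith

theorem energy {d : ℕ} {q : MvPolynomial (Fin n) ℝ} (hq : q.totalDegree ≤ d) :
    ∑ i, L (pderiv i q * pderiv i q) ≤ d * L (q * q) := by
  have h := energy_aux d q hq
  have e : q * (C (d : ℝ) * q + OU q) = C (d : ℝ) * (q * q) + q * OU q := by ring
  rw [e, L_add, L_C_mul, L_mul_OU] at h
  linarith

theorem weighted (j : ℕ) {d : ℕ} {h : MvPolynomial (Fin n) ℝ} (hh : h.totalDegree ≤ d) :
    ∑ i, L (h ^ (2 * j) * (pderiv i h) ^ 2) ≤ d * L (h ^ (2 * j + 2)) := by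
  have hdeg : (h ^ (j + 1)).totalDegree ≤ (j + 1) * d :=
    (totalDegree_pow _ _).trans (Nat.mul_le_mul_left _ hh)
  have h1 := energy hdeg
  have e1 : ∀ i, L (pderiv i (h ^ (j + 1)) * pderiv i (h ^ (j + 1)))
      = ((j : ℝ) + 1) ^ 2 * L (h ^ (2 * j) * (pderiv i h) ^ 2) := by
    intro i
    rw [pderiv_pow, ← L_C_mul]
    congr 1
    have : (C (((j : ℝ) + 1) ^ 2) : MvPolynomial (Fin n) ℝ) = ((j + 1 : ℕ) : MvPolynomial (Fin n) ℝ) ^ 2 := by
      simp
    rw [this]
    simp only [Nat.add_sub_cancel]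
    ring
  simp_rw [e1] at h1
  rw [← Finset.mul_sum] at h1
  have e2 : h ^ (j + 1) * h ^ (j + 1) = h ^ (2 * j + 2) := by ring
  rw [e2] at h1
  have hj : (0 : ℝ) < (j : ℝ) + 1 := by positivity
  have hnn : 0 ≤ ∑ i, L (h ^ (2 * j) * (pderiv i h) ^ 2) :=
    Finset.sum_nonneg (fun i _ => L_nonneg (fun x => by
      rw [map_mul, map_pow, map_pow, pow_mul]; positivity))
  have h3 : ((j : ℝ) + 1) * ∑ i, L (h ^ (2 * j) * (pderiv i h) ^ 2) ≤ d * L (h ^ (2 * j + 2)) := by
    have : ((j : ℝ) + 1) * (((j : ℝ) + 1) * ∑ i, L (h ^ (2 * j) * (pderiv i h) ^ 2))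
        ≤ ((j : ℝ) + 1) * (d * L (h ^ (2 * j + 2))) := by
      calc _ = ((j : ℝ) + 1) ^ 2 * ∑ i, L (h ^ (2 * j) * (pderiv i h) ^ 2) := by ring
        _ ≤ _ := h1
        _ = _ := by push_cast; ring
    exact le_of_mul_le_mul_left this hj
  have hj0 : (0 : ℝ) ≤ j := Nat.cast_nonneg j
  nlinarith [mul_nonneg hj0 hnn]

theorem point_ineq (j : ℕ) (g a u w : ℝ) :
    g ^ (2 * j) * w ^ 2 ≤ 4 * (g ^ (2 * j) * u ^ 2 + (g + a) ^ (2 * j) * (u + w) ^ 2
      + (g - a) ^ (2 * j) * (u - w) ^ 2) := by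
  have ev : ∀ y : ℝ, |y| ^ (2 * j) = y ^ (2 * j) := fun y => by rw [pow_mul, pow_mul, sq_abs]
  have hp : 0 ≤ (g + a) ^ (2 * j) * (u + w) ^ 2 := by rw [pow_mul]; positivity
  have hm : 0 ≤ (g - a) ^ (2 * j) * (u - w) ^ 2 := by rw [pow_mul]; positivity
  rcases le_or_gt |g| |g + a| with h | h
  · have := MB.edge_aux (2 * j) |g| u w |g| |g + a| (abs_nonneg _) le_rfl h
    rw [ev, ev] at this
    linarith
  · have h' : |g| ≤ |g - a| := by
      have : 2 * |g| ≤ |g + a| + |g - a| := by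
        calc 2 * |g| = |(g + a) + (g - a)| := by
              rw [show (g + a) + (g - a) = 2 * g by ring, abs_mul]; norm_num
          _ ≤ _ := abs_add_le _ _
      linarith
    have := MB.edge_aux (2 * j) |g| u (-w) |g| |g - a| (abs_nonneg _) le_rfl h'
    rw [ev, ev, neg_sq, ← sub_eq_add_neg] at this
    linarith

theorem L_pow_nonneg (j : ℕ) (q : MvPolynomial (Fin n) ℝ) : 0 ≤ L (q ^ (2 * j + 2)) :=
  L_nonneg (fun x => by
    rw [map_pow, show 2 * j + 2 = 2 * (j + 1) by ring, pow_mul]; positivity)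

theorem L_pow_add (j : ℕ) (p q : MvPolynomial (Fin n) ℝ) :
    L ((p + q) ^ (2 * j + 2)) ≤ 4 ^ (j + 1) * (L (p ^ (2 * j + 2)) + L (q ^ (2 * j + 2))) := by
  rw [← L_add, ← L_C_mul]
  apply L_mono
  intro x
  simp only [map_mul, map_add, map_pow, eval_C]
  have := MB.pow_add_le (j + 1) (by omega) (eval x p) (eval x q)
  rw [show 2 * j + 2 = 2 * (j + 1) by ring]
  exact this

theorem mixed (j : ℕ) {d : ℕ} {g a : MvPolynomial (Fin n) ℝ} (hg : g.totalDegree ≤ d)
    (ha : a.totalDegree ≤ d) :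
    ∑ i, L (g ^ (2 * j) * (pderiv i a) ^ 2) ≤
      4 * d * (1 + 2 * 4 ^ (j + 1)) * (L (g ^ (2 * j + 2)) + L (a ^ (2 * j + 2))) := by
  have hp := weighted j (d := d) (h := g + a) ((totalDegree_add _ _).trans (max_le hg ha))
  have hm := weighted j (d := d) (h := g - a) ((totalDegree_sub _ _).trans (max_le hg ha))
  have h0 := weighted j hg
  have key : ∑ i, L (g ^ (2 * j) * (pderiv i a) ^ 2) ≤
      4 * (∑ i, L (g ^ (2 * j) * (pderiv i g) ^ 2)
        + ∑ i, L ((g + a) ^ (2 * j) * (pderiv i (g + a)) ^ 2)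
        + ∑ i, L ((g - a) ^ (2 * j) * (pderiv i (g - a)) ^ 2)) := by
    rw [← Finset.sum_add_distrib, ← Finset.sum_add_distrib, Finset.mul_sum]
    refine Finset.sum_le_sum (fun i _ => ?_)
    rw [← L_add, ← L_add, ← L_C_mul]
    apply L_mono
    intro x
    simp only [map_mul, map_add, map_sub, map_pow, eval_C]
    exact point_ineq j _ _ _ _
  have b1 := L_pow_add j g a
  have b2 : L ((g - a) ^ (2 * j + 2)) ≤
      4 ^ (j + 1) * (L (g ^ (2 * j + 2)) + L (a ^ (2 * j + 2))) := by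
    have := L_pow_add j g (-a)
    have e : (-a) ^ (2 * j + 2) = a ^ (2 * j + 2) := by
      rw [show 2 * j + 2 = 2 * (j + 1) by ring, pow_mul, pow_mul, neg_sq]
    rwa [e, ← sub_eq_add_neg] at this
  have hX := L_pow_nonneg j g
  have hY := L_pow_nonneg j a
  have hd : (0 : ℝ) ≤ d := Nat.cast_nonneg d
  have hp' := hp.trans (mul_le_mul_of_nonneg_left b1 hd)
  have hm' := hm.trans (mul_le_mul_of_nonneg_left b2 hd)
  have hY' : 0 ≤ (d : ℝ) * L (a ^ (2 * j + 2)) := mul_nonneg hd hY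
  refine key.trans ?_
  nlinarith

/-- main inequality -/
theorem main (j : ℕ) {d : ℕ} (hd : 1 ≤ d) {f : MvPolynomial (Fin n) ℝ} (hf : f.totalDegree ≤ d) :
    L ((OU f) ^ (2 * j + 2)) ≤
      ((2 * j + 1) * (8 * (1 + 2 * 4 ^ (j + 1))) * d) ^ (2 * j + 2) * L (f ^ (2 * j + 2)) := by
  set g := OU f with hgdef
  have hg : g.totalDegree ≤ d := deg_OU f hf
  set κ : ℝ := 2 * j + 1 with hκ
  have hj0 : (0 : ℝ) ≤ j := Nat.cast_nonneg j
  have hκ1 : 1 ≤ κ := by rw [hκ]; linarith
  set B : ℝ := 4 * (1 + 2 * 4 ^ (j + 1)) with hB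
  have hB1 : 1 ≤ B := by
    have : (0 : ℝ) < 4 ^ (j + 1) := by positivity
    rw [hB]; linarith
  have hC : κ * (8 * (1 + 2 * 4 ^ (j + 1))) * d = 2 * κ * d * B := by rw [hB]; ring
  rw [hC]
  have hdpos : (0 : ℝ) < d := by exact_mod_cast hd
  set K : ℝ := (d : ℝ) with hK
  set R : ℝ := 2 * κ * K * B with hR
  have hRpos : 0 < R := by rw [hR]; positivity
  set X' : ℝ := L (g ^ (2 * j + 2)) with hX
  set Y' : ℝ := L (f ^ (2 * j + 2)) with hY
  have hXnn : 0 ≤ X' := L_pow_nonneg j g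
  have hYnn : 0 ≤ Y' := L_pow_nonneg j f
  set P : ℝ := ∑ i, L (g ^ (2 * j) * (pderiv i g) ^ 2) with hP
  set Q : ℝ := ∑ i, L (g ^ (2 * j) * (pderiv i f) ^ 2) with hQ
  have hCdeg : (C R * f).totalDegree ≤ d := by
    refine (totalDegree_mul _ _).trans ?_
    rw [totalDegree_C]; omega
  have hmix := mixed j hg hCdeg
  have hmix' : R ^ 2 * Q ≤ K * B * (X' + R ^ (2 * j + 2) * Y') := by
    have e1 : ∑ i, L (g ^ (2 * j) * (pderiv i (C R * f)) ^ 2) = R ^ 2 * Q := by
      rw [hQ, Finset.mul_sum]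
      refine Finset.sum_congr rfl (fun i _ => ?_)
      rw [pderiv_C_mul, ← L_C_mul]
      congr 1
      rw [map_pow]
      ring
    have e2 : L ((C R * f) ^ (2 * j + 2)) = R ^ (2 * j + 2) * Y' := by
      rw [hY, ← L_C_mul]
      congr 1
      rw [mul_pow, map_pow]
    rw [e1, e2] at hmix
    calc _ ≤ _ := hmix
      _ = K * B * (X' + R ^ (2 * j + 2) * Y') := by rw [hB]; ring
  have hE : P ≤ K * X' := weighted j hg
  have hmain : X' = - (κ * ∑ i, L (g ^ (2 * j) * (pderiv i g * pderiv i f))) := by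
    have e1 : g ^ (2 * j + 2) = g ^ (2 * j + 1) * OU f := by rw [← hgdef]; ring
    rw [hX, e1, L_mul_OU, Finset.mul_sum]
    congr 1
    refine Finset.sum_congr rfl (fun i _ => ?_)
    rw [pderiv_pow, ← L_C_mul]
    congr 1
    have : (C κ : MvPolynomial (Fin n) ℝ) = ((2 * j + 1 : ℕ) : MvPolynomial (Fin n) ℝ) := by
      rw [hκ, map_add, map_mul, map_ofNat]; simp
    rw [this]
    simp only [Nat.add_sub_cancel]
    ring
  set t : ℝ := 1 / (2 * κ * K) with ht
  have htpos : 0 < t := by rw [ht]; positivity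
  have hsum : X' ≤ κ / 2 * (t * P + t⁻¹ * Q) := by
    have h1 : - ∑ i, L (g ^ (2 * j) * (pderiv i g * pderiv i f)) ≤ (1 / 2) * (t * P + t⁻¹ * Q) := by
      rw [hP, hQ, Finset.mul_sum, Finset.mul_sum, ← Finset.sum_add_distrib, Finset.mul_sum,
        ← Finset.sum_neg_distrib]
      refine Finset.sum_le_sum (fun i _ => ?_)
      have e1 : - L (g ^ (2 * j) * (pderiv i g * pderiv i f))
          = L (C (-1) * (g ^ (2 * j) * (pderiv i g * pderiv i f))) := by
        rw [L_C_mul]; ring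
      rw [e1, ← L_C_mul, ← L_C_mul, ← L_add, ← L_C_mul]
      apply L_mono
      intro x
      simp only [map_mul, map_add, map_pow, eval_C]
      set G := eval x g
      set u := eval x (pderiv i g)
      set v := eval x (pderiv i f)
      have h3 : -(u * v) ≤ (1 / 2) * (t * u ^ 2 + t⁻¹ * v ^ 2) := by
        have : 0 ≤ t⁻¹ * (t * u + v) ^ 2 := by positivity
        have e3 : t⁻¹ * (t * u + v) ^ 2 = t * u ^ 2 + 2 * (u * v) + t⁻¹ * v ^ 2 := by
          field_simp
          ring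
        linarith
      have hG : 0 ≤ G ^ (2 * j) := by rw [pow_mul]; positivity
      have := mul_le_mul_of_nonneg_left h3 hG
      calc _ = G ^ (2 * j) * -(u * v) := by ring
        _ ≤ _ := this
        _ = _ := by ring
    rw [hmain]
    have : κ * (- ∑ i, L (g ^ (2 * j) * (pderiv i g * pderiv i f)))
        ≤ κ * ((1 / 2) * (t * P + t⁻¹ * Q)) :=
      mul_le_mul_of_nonneg_left h1 (by linarith)
    linarith
  have hR2k : 0 ≤ R ^ (2 * j + 2) * Y' := by positivity
  have t1 : κ / 2 * (t * P) ≤ X' / 4 := by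
    have : κ / 2 * (t * P) ≤ κ / 2 * (t * (K * X')) := by gcongr
    have e : κ / 2 * (t * (K * X')) = X' / 4 := by
      rw [ht]; field_simp; norm_num; ring
    linarith
  have t2 : κ / 2 * (t⁻¹ * Q) ≤ (X' + R ^ (2 * j + 2) * Y') / 4 := by
    have hti : t⁻¹ = 2 * κ * K := by rw [ht]; simp
    rw [hti]
    have hQ2 : Q ≤ K * B * (X' + R ^ (2 * j + 2) * Y') / R ^ 2 := by
      rw [le_div_iff₀ (by positivity)]; linarith
    have hcoef : κ / 2 * (2 * κ * K) * (K * B / R ^ 2) ≤ 1 / 4 := by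
      rw [hR]
      have : κ / 2 * (2 * κ * K) * (K * B / (2 * κ * K * B) ^ 2) = 1 / (4 * B) := by
        field_simp
        norm_num
      rw [this]
      apply one_div_le_one_div_of_le (by norm_num)
      linarith
    calc κ / 2 * (2 * κ * K * Q) = κ / 2 * (2 * κ * K) * Q := by ring
      _ ≤ κ / 2 * (2 * κ * K) * (K * B * (X' + R ^ (2 * j + 2) * Y') / R ^ 2) := by gcongr
      _ = (κ / 2 * (2 * κ * K) * (K * B / R ^ 2)) * (X' + R ^ (2 * j + 2) * Y') := by ring
      _ ≤ 1 / 4 * (X' + R ^ (2 * j + 2) * Y') := by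
          apply mul_le_mul_of_nonneg_right hcoef; linarith
      _ = _ := by ring
  have : X' ≤ X' / 4 + (X' + R ^ (2 * j + 2) * Y') / 4 := by
    calc X' ≤ κ / 2 * (t * P + t⁻¹ * Q) := hsum
      _ = κ / 2 * (t * P) + κ / 2 * (t⁻¹ * Q) := by ring
      _ ≤ _ := add_le_add t1 t2
  linarith

end Pool.Agent.Helper587.Gau
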