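import Pool.Agent.Helper587.Gau.Closing
set_option autoImplicit false
open MeasureTheory ProbabilityTheory MvPolynomial
namespace Pool.Agent.Helper587.Gau
variable {n : ℕ}

theorem memLp_eval (k : ℕ) (hk : 1 ≤ k) (q : MvPolynomial (Fin n) ℝ) :
    MemLp (fun x => eval x q) ((2 * k : ℕ) : ENNReal) (gam n) := by
  rw [← integrable_norm_rpow_iff (integrable_eval q).1 (by simp; omega) (ENNReal.natCast_ne_top _)]
  have := integrable_eval (q ^ (2 * k))
  refine this.congr (Filter.Eventually.of_forall (fun x => ?_))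
  simp only [map_pow, ENNReal.toReal_natCast, Real.rpow_natCast, Real.norm_eq_abs]
  rw [pow_mul, pow_mul, sq_abs]

theorem eLp_eq (k : ℕ) (hk : 1 ≤ k) (q : MvPolynomial (Fin n) ℝ) :
    eLpNorm (fun x => eval x q) ((2 * k : ℕ) : ENNReal) (gam n)
      = ENNReal.ofReal ((L (q ^ (2 * k))) ^ (((2 * k : ℕ) : ℝ)⁻¹)) := by
  rw [(memLp_eval k hk q).eLpNorm_eq_integral_rpow_norm (by simp; omega) (ENNReal.natCast_ne_top _)]
  simp only [ENNReal.toReal_natCast, Real.rpow_natCast, Real.norm_eq_abs]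
  congr 2
  unfold L
  refine integral_congr_ae (Filter.Eventually.of_forall (fun x => ?_))
  simp only [map_pow]
  rw [pow_mul, pow_mul, sq_abs]

theorem eLp_le (k : ℕ) (hk : 1 ≤ k) (q r : MvPolynomial (Fin n) ℝ) {A : ℝ} (hA : 0 ≤ A)
    (h : L (q ^ (2 * k)) ≤ A ^ (2 * k) * L (r ^ (2 * k))) :
    eLpNorm (fun x => eval x q) ((2 * k : ℕ) : ENNReal) (gam n)
      ≤ ENNReal.ofReal A * eLpNorm (fun x => eval x r) ((2 * k : ℕ) : ENNReal) (gam n) := by
  rw [eLp_eq k hk, eLp_eq k hk, ← ENNReal.ofReal_mul hA]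
  apply ENNReal.ofReal_le_ofReal
  have hq : 0 ≤ L (q ^ (2 * k)) := L_nonneg (fun x => by rw [map_pow, pow_mul]; positivity)
  have hr : 0 ≤ L (r ^ (2 * k)) := L_nonneg (fun x => by rw [map_pow, pow_mul]; positivity)
  have h2k : (0 : ℝ) < ((2 * k : ℕ) : ℝ) := by
    have : 0 < 2 * k := by omega
    exact_mod_cast this
  calc (L (q ^ (2 * k))) ^ (((2 * k : ℕ) : ℝ)⁻¹)
      ≤ (A ^ (2 * k) * L (r ^ (2 * k))) ^ (((2 * k : ℕ) : ℝ)⁻¹) :=
        Real.rpow_le_rpow hq h (by positivity)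
    _ = A * (L (r ^ (2 * k))) ^ (((2 * k : ℕ) : ℝ)⁻¹) := by
        rw [Real.mul_rpow (by positivity) hr, Real.pow_rpow_inv_natCast hA (by omega)]

end Pool.Agent.Helper587.Gau
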